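import Pool.Agent.Helper657_nd.AutG

set_option autoImplicit false

namespace Pool.Agent.Results.MP_e9747f_lc.AutFreeGroups

open Pool.Agent.Helper657_nd

/-- For `n ≥ 3` the (finitely presented) automorphism group of the free group of rank `n` is not
`k`-decidable for any sufficiently large `k`. -/
theorem result (n : ℕ) (hn : 3 ≤ n) :
    ∃ N : ℕ, ∀ k ≥ N, ¬ NDecidable k (MulAut (FreeGroup (Fin n))) :=
  (AutF.main (α := Fin n) (a := ⟨0, by omega⟩) (b := ⟨1, by omega⟩) (c := ⟨2, by omega⟩)
    (by simp) (by simp) (by simp)).main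

end Pool.Agent.Results.MP_e9747f_lc.AutFreeGroups
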