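import Pool.Agent.Helper657_nd.WDef

set_option autoImplicit false

namespace Pool.Agent.Results.MP_e9747f_lc.CommutingConjugates

open Pool.Agent.Helper657_nd

/-- Let `K` be a subgroup of `G` that is definable with parameters, and let `H` be a non-abelian
subgroup of `G`, finitely generated or at least with definable centralizer, such that every
element of `K` either normalizes `H` or conjugates `H` to a subgroup that commutes with `H`
elementwise. If some element `t` of `K` has no non-trivial power that normalizes `H`, then `G`
is not `n`-decidable for any sufficiently large `n`. -/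
theorem result {G : Type} [Group G] (H K : Subgroup G)
    (hna : ∃ a ∈ H, ∃ b ∈ H, a * b ≠ b * a)
    (hH : H.FG ∨ DefinableSet (Subgroup.centralizer (H : Set G) : Set G))
    (hK : DefinableSet (K : Set G))
    (hdich : ∀ x ∈ K, (∀ a, a ∈ H ↔ x * a * x⁻¹ ∈ H) ∨
      ∀ a ∈ H, ∀ b ∈ H, a * (x * b * x⁻¹) = (x * b * x⁻¹) * a)
    (t : G) (ht : t ∈ K)
    (hpow : ∀ i : ℕ, i ≠ 0 → ¬ ∀ a, a ∈ H ↔ t ^ i * a * (t ^ i)⁻¹ ∈ H) :
    ∃ N : ℕ, ∀ n ≥ N, ¬ NDecidable n G := by
  obtain ⟨a, ha, b, hb, hab⟩ := hna
  have hC : DefinableSet (Subgroup.centralizer (H : Set G) : Set G) := by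
    rcases hH with hfg | hC
    · obtain ⟨T, hT⟩ := hfg
      apply Df.definableSet
      have h1 : Df fun s : ℕ → G => ∀ b ∈ T.toList, s 0 * b = b * s 0 :=
        Df.forallList T.toList fun b _ => Df.eq ((Tm.var 0).mul (Tm.const b))
          ((Tm.const b).mul (Tm.var 0))
      refine h1.congr fun s => ?_
      rw [← hT]
      constructor
      · intro h2 b hb
        have := Subgroup.mem_centralizer_iff.1 h2 b
          (Subgroup.subset_closure (Finset.mem_toList.1 hb))
        exact this.symm
      · intro h2
        have h3 : Subgroup.closure (T : Set G) ≤ Subgroup.centralizer {s 0} := by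
          rw [Subgroup.closure_le]
          intro b hb
          rw [SetLike.mem_coe, Subgroup.mem_centralizer_singleton_iff]
          exact (h2 b (Finset.mem_toList.2 hb)).symm
        rw [SetLike.mem_coe, Subgroup.mem_centralizer_iff]
        intro b hb
        exact Subgroup.mem_centralizer_singleton_iff.1 (h3 hb)
    · exact hC
  have hK' : DefinableSet ((K ⊓ Subgroup.centralizer {t} : Subgroup G) : Set G) := by
    apply Df.definableSet
    refine ((DefinableSet.df hK (Tm.var 0)).and (Df.eq ((Tm.var 0).mul (Tm.const t))
      ((Tm.const t).mul (Tm.var 0)))).congr fun s => ?_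
    rw [SetLike.mem_coe, Subgroup.mem_inf, Subgroup.mem_centralizer_singleton_iff]
    rfl
  have Hy : W.Hyp t a H (Subgroup.centralizer (H : Set G)) (K ⊓ Subgroup.centralizer {t}) :=
    { cent := fun g => by
        rw [Subgroup.mem_centralizer_iff]
        exact ⟨fun h b hb => (h b hb).symm, fun h b hb => (h b hb).symm⟩
      mem := ⟨ht, Subgroup.mem_centralizer_singleton_iff.2 rfl⟩
      comm := fun x hx => Subgroup.mem_centralizer_singleton_iff.1 hx.2
      pow := fun i hi hn => hpow i hi fun c => Subgroup.mem_normalizer_iff.1 hn c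
      dich := fun x hx => by
        rcases hdich x hx.1 with h1 | h1
        · exact Or.inl (Subgroup.mem_normalizer_iff.2 h1)
        · exact Or.inr h1
      mema := ha
      na := fun h => hab (Subgroup.mem_centralizer_iff.1 h b hb).symm }
  exact (W.main Hy hC hK').main

end Pool.Agent.Results.MP_e9747f_lc.CommutingConjugates
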