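import Pool.Agent.Helper657_nd.LinG

set_option autoImplicit false

namespace Pool.Agent.Results.MP_e9747f_lc.LinearSubgroups

open Pool.Agent.Helper657_nd

/-- Let `Q` be a definable section of `G` (a quotient of a definable subgroup `S` by a definable
normal subgroup, for instance `Q = G`). Let `L` be a subgroup of `Q` that is linear over a field
of characteristic zero and finitely generated or at least with all matrix entries in one finitely
generated ring. Let `H` be a solvable subgroup of `L` (not assumed to be definable or finitely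
generated) that is not virtually abelian, and suppose that the centralizers in `Q` of the elements
of infinite order of `H` are contained in `L` (for instance `L = Q`). Then `G` is not
`n`-decidable for any sufficiently large `n`. -/
theorem result {G Q K : Type} [Group G] [Group Q] [Field K] [CharZero K]
    (S : Subgroup G) (π : S →* Q) (hπ : Function.Surjective π)
    (hS : DefinableSet (S : Set G)) (hker : DefinableSet {g : G | ∃ h : g ∈ S, π ⟨g, h⟩ = 1})
    (L : Subgroup Q) (d : ℕ) (ρ : L →* GL (Fin d) K) (hρ : Function.Injective ρ)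
    (hfg : L.FG ∨ ∃ T : Finset K, ∀ (g : L) (i j : Fin d),
      (ρ g : Matrix (Fin d) (Fin d) K) i j ∈ Subring.closure (T : Set K))
    (H : Subgroup Q) (hHL : H ≤ L)
    (hcent : ∀ a ∈ H, ¬ IsOfFinOrder a → ∀ x : Q, x * a = a * x → x ∈ L)
    (hsol : Group.IsSolvable H)
    (hva : ¬ ∃ B : Subgroup Q, B ≤ H ∧ B.relIndex H ≠ 0 ∧ ∀ a ∈ B, ∀ b ∈ B, a * b = b * a) :
    ∃ N : ℕ, ∀ n ≥ N, ¬ NDecidable n G := by
  obtain ⟨T, hT⟩ : ∃ T : Finset K, ∀ (g : L) (i j : Fin d),
      (ρ g : Matrix (Fin d) (Fin d) K) i j ∈ Subring.closure (T : Set K) := by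
    rcases hfg with h | h
    · exact Lin.exists_entries ((Group.fg_iff_subgroup_fg L).2 h) ρ
    · exact h
  have hK : DefinableSet ((π.ker.map S.subtype : Subgroup G) : Set G) := by
    have h1 : ((π.ker.map S.subtype : Subgroup G) : Set G) =
        {g : G | ∃ h : g ∈ S, π ⟨g, h⟩ = 1} := by
      ext g
      constructor
      · rintro ⟨x, hx, rfl⟩
        exact ⟨x.2, hx⟩
      · rintro ⟨h, h'⟩
        exact ⟨⟨g, h⟩, h', rfl⟩
    rw [h1]
    exact hker
  exact (Undec.of_section π hS hπ hK (Lin.linearG ρ hρ T hT H hHL hcent hsol hva)).main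

end Pool.Agent.Results.MP_e9747f_lc.LinearSubgroups
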