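import Pool.Agent.Helper657_nd.SolvMM

set_option autoImplicit false

namespace Pool.Agent.Results.MP_e9747f_lc.SolvableSubgroups

open Pool.Agent.Helper657_nd

variable {G : Type} [Group G]

/-- The centre of the centralizer of `A` in `G`. -/
def hull (A : Subgroup G) : Subgroup G :=
  Subgroup.centralizer (A : Set G) ⊓
    Subgroup.centralizer (Subgroup.centralizer (A : Set G) : Set G)

/-- For an abelian group `E` this says that `E` is minimax with finite torsion subgroup: for some
`s > 0` every element of `E` has a power with exponent a power of `s` in a fixed finitely generated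
subgroup, and `E` has only finitely many elements of finite order. -/
def MinimaxFT (E : Subgroup G) : Prop :=
  ∃ (s : ℕ) (S : Finset G), 0 < s ∧ (∀ a ∈ S, a ∈ E) ∧
    (∀ a ∈ E, ∃ k : ℕ, a ^ s ^ k ∈ Subgroup.closure (S : Set G)) ∧
    {a : G | a ∈ E ∧ IsOfFinOrder a}.Finite

/-- Let `H` be a solvable subgroup of `G` (not assumed to be definable or finitely generated) that
is not virtually abelian. If for every abelian subgroup `A` of `H` the centre of the centralizer
of `A` in `G` is minimax with finite torsion subgroup, then `G` is not `n`-decidable for any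
sufficiently large `n`. -/
theorem result (H : Subgroup G) (hsol : Group.IsSolvable H)
    (hmm : ∀ A : Subgroup G, A ≤ H → (∀ a ∈ A, ∀ b ∈ A, a * b = b * a) → MinimaxFT (hull A))
    (hva : ¬ ∃ B : Subgroup G, B ≤ H ∧ B.relIndex H ≠ 0 ∧ ∀ a ∈ B, ∀ b ∈ B, a * b = b * a) :
    ∃ N : ℕ, ∀ n ≥ N, ¬ NDecidable n G :=
  (Solv.main2 H hmm hsol hva).main

end Pool.Agent.Results.MP_e9747f_lc.SolvableSubgroups
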